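import Pool.Agent.Helper23.Conf.FinalQ2

set_option autoImplicit false

open Pool.Agent.Helper23.Conf

namespace Pool.Agent.Results.MP_098c03_co.FourConnected

theorem result : ∃ (P : Finset (ℝ × ℝ)) (L : Finset (Set (ℝ × ℝ))),
    IsGeometricConfiguration 246 4 P L ∧ IsKConnected 4 (leviGraph P L) ∧
      ¬ HasHamiltonianCycle (leviGraph P L) :=
  main246

end Pool.Agent.Results.MP_098c03_co.FourConnected
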